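import Mathlib
import Pool.Agent.N345.Rs.Glue

set_option autoImplicit false

/-!
# From arcs to codes and back

An arc of `PG(k-1, F)` whose projection from `k - 3` of its points lies on a conic, and whose code
has the property that the shortening being a Reed-Solomon code implies that the code is one, lies on
a normal rational curve.
-/

namespace Pool.Agent.L5helper46.OC

open Finset Pool.Agent.N345.Rs

/-- The points of the normal rational curve. -/
def curve (F : Type) [Field F] (k : ℕ) : Option F → (Fin k → F)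
  | some t => fun i => t ^ (i : ℕ)
  | none => fun i => if (i : ℕ) + 1 = k then 1 else 0

variable {F : Type} [Field F] {n k : ℕ}

/-- the word of a functional -/
def Phi (v : Fin n → (Fin k → F)) : (Fin k → F) →ₗ[F] (Fin n → F) where
  toFun l i := ∑ j, l j * v i j
  map_add' a b := by
    ext i
    simp only [Pi.add_apply, add_mul, Finset.sum_add_distrib]
  map_smul' a b := by
    ext i
    simp only [Pi.smul_apply, smul_eq_mul, RingHom.id_apply, Finset.mul_sum, mul_assoc]

theorem Phi_apply (v : Fin n → (Fin k → F)) (l : Fin k → F) (i : Fin n) :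
    Phi v l i = ∑ j, l j * v i j := rfl

/-- `k` vectors of the arc span the space -/
theorem span_top (v : Fin n → (Fin k → F)) (s : Finset (Fin n)) (hs : s.card = k)
    (hv : LinearIndependent F (fun i : s => v i)) :
    Submodule.span F (Set.range (fun i : s => v i)) = ⊤ := by
  refine hv.span_eq_top_of_card_eq_finrank' ?_
  rw [Fintype.card_coe, hs, Module.finrank_fintype_fun_eq_card, Fintype.card_fin]

/-- a functional which vanishes at `k` of the vectors is zero -/
theorem Phi_zero (v : Fin n → (Fin k → F))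
    (hv : ∀ s : Finset (Fin n), s.card = k → LinearIndependent F (fun i : s => v i))
    (Z : Finset (Fin n)) (hZ : k ≤ Z.card) (l : Fin k → F) (h : ∀ i ∈ Z, Phi v l i = 0) :
    l = 0 := by
  obtain ⟨s, hsZ, hs⟩ := Finset.exists_subset_card_eq hZ
  let f : (Fin k → F) →ₗ[F] F :=
    { toFun := fun x => ∑ j, l j * x j
      map_add' := fun a b => by simp only [Pi.add_apply, mul_add, Finset.sum_add_distrib]
      map_smul' := fun a b => by
        simp only [Pi.smul_apply, smul_eq_mul, RingHom.id_apply, Finset.mul_sum]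
        exact Finset.sum_congr rfl fun j _ => by ring }
  have hf : f = 0 := by
    refine LinearMap.ext_on_range (v := fun i : s => v i) (span_top v s hs (hv s hs)) ?_
    intro i
    rw [LinearMap.zero_apply]
    exact h i (hsZ i.2)
  ext j
  have h1 : f (Pi.single j 1) = 0 := by rw [hf]; rfl
  have h2 : f (Pi.single j 1) = l j := by
    change ∑ j', l j' * (Pi.single j (1 : F) : Fin k → F) j' = l j
    rw [Finset.sum_eq_single_of_mem j (Finset.mem_univ j)]
    · rw [Pi.single_eq_same, mul_one]
    · intro b _ hb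
      rw [Pi.single_eq_of_ne hb, mul_zero]
  rw [← h2, h1]; rfl

theorem mds (v : Fin n → (Fin k → F)) (hkn : k ≤ n)
    (hv : ∀ s : Finset (Fin n), s.card = k → LinearIndependent F (fun i : s => v i)) :
    MDS k (LinearMap.range (Phi v)) where
  finrank := by
    have hinj : Function.Injective (Phi v) := by
      rw [← LinearMap.ker_eq_bot, LinearMap.ker_eq_bot']
      intro l hl
      refine Phi_zero v hv Finset.univ (by rw [Finset.card_univ, Fintype.card_fin]; exact hkn) l ?_
      intro i _
      rw [hl]; rfl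
    rw [LinearMap.finrank_range_of_inj hinj, Module.finrank_fintype_fun_eq_card, Fintype.card_fin]
  zeros := by
    rintro c ⟨l, rfl⟩ Z hZ h
    rw [Phi_zero v hv Z hZ l h, map_zero]

/-- the kernel of the projection is spanned by the vectors of `T` -/
theorem ker_eq (v : Fin n → (Fin k → F)) (hkn : k ≤ n)
    (hv : ∀ s : Finset (Fin n), s.card = k → LinearIndependent F (fun i : s => v i))
    (T : Finset (Fin n)) (hT : T.card + 3 = k)
    (pi : (Fin k → F) →ₗ[F] (Fin 3 → F)) (hs : Function.Surjective pi)
    (h0 : ∀ i ∈ T, pi (v i) = 0) :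
    LinearMap.ker pi = Submodule.span F (Set.range (fun i : T => v i)) := by
  classical
  obtain ⟨s, hTs, hsk⟩ := Finset.exists_superset_card_eq (s := T) (n := k)
    (by omega) (by rw [Fintype.card_fin]; exact hkn)
  have hli : LinearIndependent F (fun i : T => v i) := by
    have h1 := hv s hsk
    exact h1.comp (fun i : T => (⟨i, hTs i.2⟩ : s)) (fun a b hab => by
      have := congrArg (fun z : s => (z : Fin n)) hab
      exact Subtype.ext this)
  symm
  refine Submodule.eq_of_le_of_finrank_eq ?_ ?_
  · rw [Submodule.span_le]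
    rintro _ ⟨i, rfl⟩
    exact h0 i i.2
  · rw [finrank_span_eq_card hli, Fintype.card_coe]
    have h1 := LinearMap.finrank_range_add_finrank_ker pi
    rw [LinearMap.range_eq_top.2 hs, finrank_top, Module.finrank_fintype_fun_eq_card,
      Module.finrank_fintype_fun_eq_card, Fintype.card_fin, Fintype.card_fin] at h1
    omega

/-- the first homogeneous coordinate of a point of the projective line -/
def hs (o : Option F) : F := o.elim 1 id

/-- the second homogeneous coordinate of a point of the projective line -/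
def ht (o : Option F) : F := o.elim 0 (fun _ => 1)

theorem hs_ht {o o' : Option F} (h : hs o * ht o' = hs o' * ht o) : o = o' := by
  cases o with
  | none =>
    cases o' with
    | none => rfl
    | some x => simp [hs, ht] at h
  | some y =>
    cases o' with
    | none => simp [hs, ht] at h
    | some x =>
      simp only [hs, ht, Option.elim, id, mul_one] at h
      rw [h]

theorem ev_two (a : ℕ → F) (o : Option F) :
    ∑ j : Fin 3, a j * curve F 3 o j = ev 2 a (hs o) (ht o) := by
  unfold ev
  rw [Finset.sum_range]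
  refine Finset.sum_congr rfl fun j _ => ?_
  cases o with
  | none => fin_cases j <;> simp [hs, ht, curve]
  | some x => fin_cases j <;> simp [hs, ht, curve]

/-- a functional as a dot product -/
theorem fun_eq (m : ℕ) (f : (Fin m → F) →ₗ[F] F) :
    ∃ a : ℕ → F, ∀ x, f x = ∑ j : Fin m, a j * x j := by
  classical
  refine ⟨fun r => if h : r < m then f (fun j => if (⟨r, h⟩ : Fin m) = j then 1 else 0) else 0,
    fun x => ?_⟩
  rw [LinearMap.pi_apply_eq_sum_univ f x]
  refine Finset.sum_congr rfl fun j _ => ?_
  dsimp only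
  rw [dif_pos j.2, smul_eq_mul, mul_comm]

/-- the functional with given coefficients -/
def dot (m : ℕ) (l : Fin m → F) : (Fin m → F) →ₗ[F] F where
  toFun x := ∑ j, l j * x j
  map_add' a b := by simp only [Pi.add_apply, mul_add, Finset.sum_add_distrib]
  map_smul' a b := by
    simp only [Pi.smul_apply, smul_eq_mul, RingHom.id_apply, Finset.mul_sum]
    exact Finset.sum_congr rfl fun j _ => by ring

theorem dot_apply (m : ℕ) (l : Fin m → F) (x : Fin m → F) : dot m l x = ∑ j, l j * x j := rfl

/-- a word which vanishes on `T` is a word of the projection -/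
theorem descend (v : Fin n → (Fin k → F)) (hkn : k ≤ n)
    (hv : ∀ s : Finset (Fin n), s.card = k → LinearIndependent F (fun i : s => v i))
    (T : Finset (Fin n)) (hT : T.card + 3 = k)
    (pi : (Fin k → F) →ₗ[F] (Fin 3 → F)) (hs : Function.Surjective pi)
    (h0 : ∀ i ∈ T, pi (v i) = 0) (l : Fin k → F) (hl : ∀ i ∈ T, Phi v l i = 0) :
    ∃ a : ℕ → F, ∀ i, Phi v l i = ∑ j : Fin 3, a j * pi (v i) j := by
  obtain ⟨ρ, hρ⟩ := pi.exists_rightInverse_of_surjective (LinearMap.range_eq_top.2 hs)
  obtain ⟨a, ha⟩ := fun_eq 3 ((dot k l).comp ρ)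
  refine ⟨a, fun i => ?_⟩
  rw [← ha]
  change dot k l (v i) = dot k l (ρ (pi (v i)))
  rw [← sub_eq_zero, ← map_sub]
  have h1 : v i - ρ (pi (v i)) ∈ LinearMap.ker pi := by
    rw [LinearMap.mem_ker, map_sub]
    have h2 : pi (ρ (pi (v i))) = pi (v i) := by
      rw [← LinearMap.comp_apply, hρ, LinearMap.id_apply]
    rw [h2, sub_self]
  have h3 : LinearMap.ker pi ≤ LinearMap.ker (dot k l) := by
    rw [ker_eq v hkn hv T hT pi hs h0, Submodule.span_le]
    rintro _ ⟨i, rfl⟩
    exact hl i i.2
  exact h3 h1

/-- every functional of the projection gives a word -/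
theorem ascend (v : Fin n → (Fin k → F)) (pi : (Fin k → F) →ₗ[F] (Fin 3 → F)) (a : ℕ → F) :
    ∃ l : Fin k → F, ∀ i, Phi v l i = ∑ j : Fin 3, a j * pi (v i) j := by
  obtain ⟨b, hb⟩ := fun_eq k ((dot 3 (fun j => a j)).comp pi)
  refine ⟨fun j => b j, fun i => ?_⟩
  exact (hb (v i)).symm

theorem shorten (v : Fin n → (Fin k → F)) (hkn : k ≤ n)
    (hv : ∀ s : Finset (Fin n), s.card = k → LinearIndependent F (fun i : s => v i))
    (T : Finset (Fin n)) (hT : T.card + 3 = k)
    (pi : (Fin k → F) →ₗ[F] (Fin 3 → F)) (hs' : Function.Surjective pi)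
    (h0 : ∀ i ∈ T, pi (v i) = 0)
    (hc : ∀ i, i ∉ T → ∃ (c : F) (t : Option F), c ≠ 0 ∧ pi (v i) = c • curve F 3 t) :
    GRS k (LinearMap.range (Phi v)) T := by
  classical
  have hc' : ∀ i, ∃ (c : F) (t : Option F), i ∉ T → (c ≠ 0 ∧ pi (v i) = c • curve F 3 t) := by
    intro i
    by_cases hi : i ∈ T
    · exact ⟨0, none, fun h => absurd hi h⟩
    · obtain ⟨c, t, h⟩ := hc i hi
      exact ⟨c, t, fun _ => h⟩
  choose w o hwo using hc'
  have key : ∀ (a : ℕ → F) (i : Fin n), i ∉ T →
      ∑ j : Fin 3, a j * pi (v i) j = w i * ev 2 a (hs (o i)) (ht (o i)) := by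
    intro a i hi
    rw [(hwo i hi).2, ← ev_two, Finset.mul_sum]
    refine Finset.sum_congr rfl fun j _ => ?_
    rw [Pi.smul_apply, smul_eq_mul]; ring
  have e2 : k - T.card - 1 = 2 := by omega
  unfold GRS
  rw [e2]
  refine ⟨fun i => hs (o i), fun i => ht (o i), w, fun i hi => (hwo i hi).1, ?_, ?_⟩
  · intro i hi j hj hij hst
    have hoo : o i = o j := hs_ht hst
    obtain ⟨I, hUI, hI⟩ := Finset.exists_superset_card_eq (s := insert i (insert j T)) (n := k)
      (by
        have h1 := Finset.card_insert_le i (insert j T)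
        have h2 := Finset.card_insert_le j T
        omega) (by rw [Fintype.card_fin]; exact hkn)
    have hiI : i ∈ I := hUI (Finset.mem_insert_self _ _)
    have hjI : j ∈ I := hUI (Finset.mem_insert_of_mem (Finset.mem_insert_self _ _))
    have hTI : T ⊆ I := fun z hz =>
      hUI (Finset.mem_insert_of_mem (Finset.mem_insert_of_mem hz))
    obtain ⟨_, ⟨l, rfl⟩, h1⟩ := exists_word (mds v hkn hv) hI (fun z => if z = i then 1 else 0)
    obtain ⟨a, ha⟩ := descend v hkn hv T hT pi hs' h0 l (fun z hz => by
      rw [h1 z (hTI hz), if_neg]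
      intro h
      rw [h] at hz
      exact hi hz)
    have h2 := h1 i hiI
    have h3 := h1 j hjI
    rw [if_pos rfl, ha, key a i hi] at h2
    rw [if_neg (Ne.symm hij), ha, key a j hj, ← hoo] at h3
    rcases mul_eq_zero.1 h3 with h4 | h4
    · exact (hwo j hj).1 h4
    · rw [h4, mul_zero] at h2
      exact zero_ne_one h2
  · intro c hcT
    constructor
    · rintro ⟨l, rfl⟩
      obtain ⟨a, ha⟩ := descend v hkn hv T hT pi hs' h0 l hcT
      exact ⟨a, fun i hi => by rw [ha, key a i hi]⟩
    · rintro ⟨a, ha⟩
      obtain ⟨l, hl⟩ := ascend v pi a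
      refine ⟨l, ?_⟩
      ext i
      rw [hl]
      by_cases hi : i ∈ T
      · rw [hcT i hi, h0 i hi]
        simp
      · rw [ha i hi, key a i hi]

open scoped Classical in
/-- the standard representative of a point of the projective line, for binary forms of degree
`k - 1` -/
theorem std (hk : 2 ≤ k) (s t : F) (hst : ¬ (s = 0 ∧ t = 0)) :
    ∃ (c : F), c ≠ 0 ∧
      (fun r : Fin k => s ^ (r : ℕ) * t ^ (k - 1 - (r : ℕ)))
        = c • curve F k (if t = 0 then none else some (s / t)) := by
  by_cases ht0 : t = 0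
  · refine ⟨s ^ (k - 1), pow_ne_zero _ (fun h => hst ⟨h, ht0⟩), ?_⟩
    rw [if_pos ht0]
    ext r
    simp only [Pi.smul_apply, smul_eq_mul, curve, ht0]
    by_cases hr : (r : ℕ) + 1 = k
    · rw [if_pos hr, show (r : ℕ) = k - 1 by omega, Nat.sub_self, pow_zero]
    · rw [if_neg hr, mul_zero, zero_pow (by have := r.2; omega), mul_zero]
  · refine ⟨t ^ (k - 1), pow_ne_zero _ ht0, ?_⟩
    rw [if_neg ht0]
    ext r
    simp only [Pi.smul_apply, smul_eq_mul, curve]
    have e : k - 1 = (k - 1 - (r : ℕ)) + (r : ℕ) := by have := r.2; omega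
    rw [div_pow]
    conv_rhs => rw [e, pow_add]
    field_simp

/-- an arc whose code is a generalized Reed-Solomon code lies on a normal rational curve -/
theorem nrc_of_code (hk : 4 ≤ k) (hkn : k + 2 ≤ n) (v : Fin n → (Fin k → F))
    (hv : ∀ s : Finset (Fin n), s.card = k → LinearIndependent F (fun i : s => v i))
    (h : GRS k (LinearMap.range (Phi v)) (∅ : Finset (Fin n))) :
    ∃ (e : Fin n → Option F) (L : (Fin k → F) ≃ₗ[F] (Fin k → F)) (c : Fin n → F),
      Function.Injective e ∧ ∀ i, c i ≠ 0 ∧ v i = c i • L (curve F k (e i)) := by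
  classical
  obtain ⟨s, t, w, hw, hst, hC⟩ := h
  have hw : ∀ i, w i ≠ 0 := fun i => hw i (Finset.notMem_empty i)
  have hst : ∀ i j, i ≠ j → s i * t j ≠ s j * t i := fun i j hij =>
    hst i (Finset.notMem_empty i) j (Finset.notMem_empty j) hij
  have hA : ∀ j : Fin k, ∃ a : ℕ → F, ∀ i, v i j = w i * ev (k - 1) a (s i) (t i) := by
    intro j
    have h1 : Phi v (Pi.single j 1) ∈ LinearMap.range (Phi v) := ⟨_, rfl⟩
    rw [hC _ (fun i hi => absurd hi (Finset.notMem_empty i))] at h1
    obtain ⟨a, ha⟩ := h1
    rw [Finset.card_empty, Nat.sub_zero] at ha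
    refine ⟨a, fun i => ?_⟩
    rw [← ha i (Finset.notMem_empty i), Phi_apply,
      Finset.sum_eq_single_of_mem j (Finset.mem_univ j)]
    · rw [Pi.single_eq_same, one_mul]
    · intro b _ hb
      rw [Pi.single_eq_of_ne hb, zero_mul]
  choose a ha using hA
  let A : (Fin k → F) →ₗ[F] (Fin k → F) :=
    { toFun := fun x j => ∑ r : Fin k, a j r * x r
      map_add' := fun x y => by
        ext j
        simp only [Pi.add_apply, mul_add, Finset.sum_add_distrib]
      map_smul' := fun c x => by
        ext j
        simp only [Pi.smul_apply, smul_eq_mul, RingHom.id_apply, Finset.mul_sum]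
        exact Finset.sum_congr rfl fun j _ => by ring }
  have hAv : ∀ i, v i = w i • A (fun r : Fin k => s i ^ (r : ℕ) * t i ^ (k - 1 - (r : ℕ))) := by
    intro i
    ext j
    rw [ha j i, Pi.smul_apply, smul_eq_mul]
    change _ = w i * ∑ r : Fin k, a j r * (s i ^ (r : ℕ) * t i ^ (k - 1 - (r : ℕ)))
    unfold ev
    rw [show k - 1 + 1 = k by omega, Finset.sum_range]
    congr 1
    exact Finset.sum_congr rfl fun r _ => by ring
  have hsur : Function.Surjective A := by
    obtain ⟨I, _, hI⟩ := Finset.exists_superset_card_eq (s := (∅ : Finset (Fin n))) (n := k)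
      (by simp) (by rw [Fintype.card_fin]; omega)
    rw [← LinearMap.range_eq_top, eq_top_iff, ← span_top v I hI (hv I hI), Submodule.span_le]
    rintro _ ⟨i, rfl⟩
    change v i ∈ LinearMap.range A
    rw [hAv i]
    exact Submodule.smul_mem _ _ ⟨_, rfl⟩
  have hbij : Function.Bijective A :=
    ⟨LinearMap.injective_iff_surjective.2 hsur, hsur⟩
  have hne : ∀ i, ¬ (s i = 0 ∧ t i = 0) := by
    rintro i ⟨h1, h2⟩
    obtain ⟨j, hj⟩ : ∃ j : Fin n, j ≠ i := by
      have : Nontrivial (Fin n) := Fin.nontrivial_iff_two_le.2 (by omega)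
      exact exists_ne i
    refine hst i j hj.symm ?_
    rw [h1, h2]; ring
  choose c hc0 hc using fun i => std (k := k) (by omega) (s i) (t i) (hne i)
  refine ⟨fun i => if t i = 0 then none else some (s i / t i), LinearEquiv.ofBijective A hbij,
    fun i => w i * c i, ?_, fun i => ⟨mul_ne_zero (hw i) (hc0 i), ?_⟩⟩
  · intro i j hij
    by_contra hne'
    refine hst i j hne' ?_
    dsimp only at hij
    by_cases h1 : t i = 0
    · by_cases h2 : t j = 0
      · rw [h1, h2]; ring
      · simp only [if_pos h1, if_neg h2] at hij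
        exact absurd hij (by simp)
    · by_cases h2 : t j = 0
      · simp only [if_neg h1, if_pos h2] at hij
        exact absurd hij (by simp)
      · simp only [if_neg h1, if_neg h2, Option.some.injEq] at hij
        rw [div_eq_div_iff h1 h2] at hij
        linear_combination hij
  · rw [LinearEquiv.ofBijective_apply, mul_smul, ← map_smul, ← hc i]
    exact hAv i

/-- **Arcs and codes.** An arc whose projection from `k - 3` of its points lies on a conic, and
whose code is a Reed-Solomon code as soon as its shortening is one, lies on a normal rational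
curve. -/
theorem arc_of_code {F : Type} [Field F] {n k : ℕ} (hk : 4 ≤ k) (hkn : k + 2 ≤ n)
    (v : Fin n → (Fin k → F))
    (hv : ∀ s : Finset (Fin n), s.card = k → LinearIndependent F (fun i : s => v i))
    (T : Finset (Fin n)) (hT : T.card + 3 = k)
    (pi : (Fin k → F) →ₗ[F] (Fin 3 → F)) (hs : Function.Surjective pi)
    (h0 : ∀ i ∈ T, pi (v i) = 0)
    (hc : ∀ i, i ∉ T → ∃ (c : F) (t : Option F), c ≠ 0 ∧ pi (v i) = c • curve F 3 t)
    (hcode : ∀ C : Submodule F (Fin n → F), MDS k C → GRS k C T → GRS k C ∅) :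
    ∃ (e : Fin n → Option F) (L : (Fin k → F) ≃ₗ[F] (Fin k → F)) (c : Fin n → F),
      Function.Injective e ∧ ∀ i, c i ≠ 0 ∧ v i = c i • L (curve F k (e i)) :=
  nrc_of_code hk hkn v hv
    (hcode _ (mds v (by omega) hv) (shorten v (by omega) hv T hT pi hs h0 hc))

end Pool.Agent.L5helper46.OC
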